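import Pool.Agent.Helper81.HodgeF.Forms

/-!
# Consequences of the invariance of `h^{0,1}` and `h^{0,2}` for the Hodge diamond
-/

set_option autoImplicit false

namespace Pool.Agent.Hodge81

open Complex Module

variable {n : ℕ} {A B : Type*} [Ring A] [Algebra ℂ A] [FiniteDimensional ℂ A]
  [Ring B] [Algebra ℂ B] [FiniteDimensional ℂ B]

namespace IsMukaiIsometry

omit [FiniteDimensional ℂ A] [FiniteDimensional ℂ B] in
theorem h_zero_zero (X : HodgeRing n A) (Y : HodgeRing n B) : X.h 0 0 = Y.h 0 0 := by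
  unfold HodgeRing.h
  rw [X.connected, Y.connected]

/-- curves (and points) -/
theorem curve {X : HodgeRing 1 A} {Y : HodgeRing 1 B} (h1 : X.h 0 1 = Y.h 0 1) (p q : ℕ) :
    X.h p q = Y.h p q := by
  have h0 := h_zero_zero X Y
  have x1 := X.h_conj 0 1
  have y1 := Y.h_conj 0 1
  refine reduce X Y (fun _ _ => True) (fun _ _ _ => trivial) (fun _ _ _ _ _ => trivial)
    (fun p q hqp hpq _ => ?_) p q trivial
  have hp : p ≤ 1 := by omega
  have hq : q ≤ 0 := by omega
  interval_cases q <;> interval_cases p <;> omega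

omit [FiniteDimensional ℂ A] [FiniteDimensional ℂ B] in
theorem point {X : HodgeRing 0 A} {Y : HodgeRing 0 B} (p q : ℕ) :
    X.h p q = Y.h p q := by
  by_cases hb : 0 < p ∨ 0 < q
  · unfold HodgeRing.h
    rw [X.bounded p q hb, Y.bounded p q hb, finrank_bot, finrank_bot]
  · obtain rfl : p = 0 := by omega
    obtain rfl : q = 0 := by omega
    exact h_zero_zero X Y

/-- surfaces -/
theorem surface {X : HodgeRing 2 A} {Y : HodgeRing 2 B} {phi : A ≃ₗ[ℂ] B}
    (hphi : IsMukaiIsometry X Y phi) (h1 : X.h 0 1 = Y.h 0 1) (h2 : X.h 0 2 = Y.h 0 2)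
    (p q : ℕ) : X.h p q = Y.h p q := by
  have h0 := h_zero_zero X Y
  have c0 := column_sum hphi (a := 0) (b := 0) (m := 2) rfl (Or.inr rfl)
  have x1 := X.h_conj 0 1
  have y1 := Y.h_conj 0 1
  have x2 := X.h_conj 0 2
  have y2 := Y.h_conj 0 2
  have x3 := X.h_serre (p := 2) (q := 2) (by norm_num) (by norm_num)
  have y3 := Y.h_serre (p := 2) (q := 2) (by norm_num) (by norm_num)
  simp only [Finset.sum_range_succ, Finset.sum_range_zero] at c0
  norm_num at c0 x3 y3
  refine reduce X Y (fun _ _ => True) (fun _ _ _ => trivial) (fun _ _ _ _ _ => trivial)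
    (fun p q hqp hpq _ => ?_) p q trivial
  have hp : p ≤ 2 := by omega
  have hq : q ≤ 1 := by omega
  interval_cases q <;> interval_cases p <;> omega

/-- threefolds -/
theorem threefold {X : HodgeRing 3 A} {Y : HodgeRing 3 B} {phi : A ≃ₗ[ℂ] B}
    (hphi : IsMukaiIsometry X Y phi) (h1 : X.h 0 1 = Y.h 0 1) (h2 : X.h 0 2 = Y.h 0 2)
    (p q : ℕ) : X.h p q = Y.h p q := by
  have h0 := h_zero_zero X Y
  have c0 := column_sum hphi (a := 0) (b := 0) (m := 3) rfl (Or.inr rfl)
  have c1 := column_sum hphi (a := 1) (b := 0) (m := 2) rfl (Or.inr rfl)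
  have c3 := hphi.forms_top
  have x1 := X.h_conj 0 1
  have y1 := Y.h_conj 0 1
  have x2 := X.h_conj 0 2
  have y2 := Y.h_conj 0 2
  have x3 := X.h_serre (p := 3) (q := 3) (by norm_num) (by norm_num)
  have y3 := Y.h_serre (p := 3) (q := 3) (by norm_num) (by norm_num)
  have x4 := X.h_serre (p := 2) (q := 2) (by norm_num) (by norm_num)
  have y4 := Y.h_serre (p := 2) (q := 2) (by norm_num) (by norm_num)
  have x5 := X.h_serre (p := 3) (q := 2) (by norm_num) (by norm_num)
  have y5 := Y.h_serre (p := 3) (q := 2) (by norm_num) (by norm_num)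
  simp only [Finset.sum_range_succ, Finset.sum_range_zero] at c0 c1
  norm_num at c0 c1 x3 y3 x4 y4 x5 y5
  refine reduce X Y (fun _ _ => True) (fun _ _ _ => trivial) (fun _ _ _ _ _ => trivial)
    (fun p q hqp hpq _ => ?_) p q trivial
  have hp : p ≤ 3 := by omega
  have hq : q ≤ 1 := by omega
  interval_cases q <;> interval_cases p <;> omega

/-- dimension at most four -/
theorem coro_four {X : HodgeRing n A} {Y : HodgeRing n B} {phi : A ≃ₗ[ℂ] B}
    (hphi : IsMukaiIsometry X Y phi) (hn : n ≤ 4) (h1 : X.h 0 1 = Y.h 0 1)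
    (h2 : X.h 0 2 = Y.h 0 2) (p q : ℕ) : X.h p q = Y.h p q := by
  interval_cases n
  · exact point p q
  · exact curve h1 p q
  · exact surface hphi h1 h2 p q
  · exact threefold hphi h1 h2 p q
  · exact fourfold hphi (by rw [X.h_conj 1 0, Y.h_conj 1 0]; exact h1) p q

/-- dimension five: all Hodge numbers off the main diagonal -/
theorem coro_five {X : HodgeRing 5 A} {Y : HodgeRing 5 B} {phi : A ≃ₗ[ℂ] B}
    (hphi : IsMukaiIsometry X Y phi) (h1 : X.h 0 1 = Y.h 0 1) (h2 : X.h 0 2 = Y.h 0 2)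
    (p q : ℕ) (hpq : p ≠ q) : X.h p q = Y.h p q := by
  refine hphi.fivefold_off (fun k => ?_) p q hpq
  have m41 := (main_aux hphi (p := 4) (q := 1) rfl).1
  rw [show min 4 1 + 1 = 2 from rfl] at m41
  simp only [Finset.sum_range_succ, Finset.sum_range_zero] at m41
  norm_num at m41
  rcases Nat.lt_or_ge 5 k with h | h
  · unfold HodgeRing.h
    rw [X.bounded k 0 (Or.inl h), Y.bounded k 0 (Or.inl h), finrank_bot, finrank_bot]
  · interval_cases k
    · exact h_zero_zero X Y
    · rw [X.h_conj 1 0, Y.h_conj 1 0, h1]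
    · rw [X.h_conj 2 0, Y.h_conj 2 0, h2]
    · exact m41
    · exact hphi.forms_pred rfl
    · exact hphi.forms_top

/-- dimension six: all Hodge numbers `h^{p,q}` with `|p - q| = 2` or `|p - q| ≥ 4`, and
`h^{2,2}` -/
theorem coro_six {X : HodgeRing 6 A} {Y : HodgeRing 6 B} {phi : A ≃ₗ[ℂ] B}
    (hphi : IsMukaiIsometry X Y phi) (h2 : X.h 0 2 = Y.h 0 2)
    (p q : ℕ) (hpq : (p = q + 2 ∨ q = p + 2) ∨ (q + 4 ≤ p ∨ p + 4 ≤ q) ∨ (p = 2 ∧ q = 2) ∨
      (p = 4 ∧ q = 4)) :
    X.h p q = Y.h p q := by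
  have h0 := h_zero_zero X Y
  have m51 := main_aux hphi (p := 5) (q := 1) rfl
  have m42 := main_aux hphi (p := 4) (q := 2) rfl
  have m33 := main_aux hphi (p := 3) (q := 3) rfl
  have m60 := main_aux hphi (p := 6) (q := 0) rfl
  rw [show min 5 1 + 1 = 2 from rfl] at m51
  rw [show min 4 2 + 1 = 3 from rfl] at m42
  rw [show min 3 3 + 1 = 4 from rfl] at m33
  rw [show min 6 0 + 1 = 1 from rfl] at m60
  simp only [Finset.sum_range_succ, Finset.sum_range_zero] at m51 m42 m33 m60
  norm_num at m51 m42 m33 m60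
  have c5 := hphi.forms_pred (p := 5) rfl
  have c4 := column_sum hphi (a := 4) (b := 0) (m := 2) rfl (Or.inr rfl)
  have c2 := column_sum hphi (a := 2) (b := 0) (m := 4) rfl (Or.inr rfl)
  have x1 := X.h_conj 0 2
  have y1 := Y.h_conj 0 2
  have x2 := X.h_serre (p := 6) (q := 2) (by norm_num) (by norm_num)
  have y2 := Y.h_serre (p := 6) (q := 2) (by norm_num) (by norm_num)
  have x3 := X.h_serre (p := 6) (q := 4) (by norm_num) (by norm_num)
  have y3 := Y.h_serre (p := 6) (q := 4) (by norm_num) (by norm_num)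
  have x4 := X.h_serre (p := 5) (q := 3) (by norm_num) (by norm_num)
  have y4 := Y.h_serre (p := 5) (q := 3) (by norm_num) (by norm_num)
  have x5 := X.h_conj 0 4
  have y5 := Y.h_conj 0 4
  have x6 := X.h_conj 1 3
  have y6 := Y.h_conj 1 3
  simp only [Finset.sum_range_succ, Finset.sum_range_zero] at c4 c2
  norm_num at c4 c2 x2 y2 x3 y3 x4 y4
  refine reduce X Y (fun p q => (p = q + 2 ∨ q = p + 2) ∨ (q + 4 ≤ p ∨ p + 4 ≤ q) ∨
      (p = 2 ∧ q = 2) ∨ (p = 4 ∧ q = 4)) (fun p q h => by omega)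
    (fun p q hp hq h => by omega) (fun p q hqp hpq hP => ?_) p q hpq
  have hp : p ≤ 6 := by omega
  have hq : q ≤ 3 := by omega
  interval_cases q <;> interval_cases p <;> omega

end IsMukaiIsometry

end Pool.Agent.Hodge81
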