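import Pool.Agent.Helper81.HT.Lef

/-!
# A polarised decomposition of the cohomology ring
-/

set_option autoImplicit false

namespace Pool.Agent.Hodge81

open Complex Module

/-- the sign of a polarised string vector -/
noncomputable def th (n p q a : ℕ) : ℂ :=
  (-I) ^ (n - (p + q)) * (-1) ^ (n - (p + q) - a) * (-1) ^ q * (-1) ^ ((p + q) * (p + q - 1) / 2)

theorem th_ne (n p q a : ℕ) : th n p q a ≠ 0 := by
  unfold th
  have h1 : (-I : ℂ) ≠ 0 := neg_ne_zero.2 I_ne_zero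
  have h2 : (-1 : ℂ) ≠ 0 := by norm_num
  exact mul_ne_zero (mul_ne_zero (mul_ne_zero (pow_ne_zero _ h1) (pow_ne_zero _ h2))
    (pow_ne_zero _ h2)) (pow_ne_zero _ h2)

theorem th_step {n p q a : ℕ} (h : p + 1 + (q + 1) ≤ n) (ha : a ≤ n - (p + 1 + (q + 1))) :
    th n (p + 1) (q + 1) a = th n p q (a + 1) := by
  unfold th
  obtain ⟨m, hm⟩ : ∃ m, n - (p + 1 + (q + 1)) = m := ⟨_, rfl⟩
  rw [hm] at ha ⊢
  have e1 : n - (p + q) = m + 2 := by omega
  have e2 : m + 2 - (a + 1) = m - a + 1 := by omega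
  have e3 : (p + 1 + (q + 1)) * (p + 1 + (q + 1) - 1) / 2 =
      (p + q) * (p + q - 1) / 2 + 2 * (p + q) + 1 := by
    obtain ⟨k, hk⟩ : ∃ k, p + q = k := ⟨_, rfl⟩
    rw [show p + 1 + (q + 1) = k + 2 by omega, hk, show k + 2 - 1 = k + 1 by omega]
    rcases k with _ | k
    · norm_num
    · rw [show (k + 1 + 2) * (k + 1 + 1) = (k + 1) * (k + 1 - 1) + (2 * (k + 1) + 1) * 2 by
        rw [Nat.add_sub_cancel]; ring, Nat.add_mul_div_right _ _ (by norm_num)]
      omega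
  rw [e1, e2, e3, pow_add (-I) m 2, pow_succ (-1 : ℂ) (m - a), pow_succ (-1 : ℂ) q,
    pow_succ (-1 : ℂ), pow_add (-1 : ℂ) ((p + q) * (p + q - 1) / 2), pow_mul (-1 : ℂ) 2 (p + q)]
  have e4 : (-I : ℂ) ^ 2 = -1 := by rw [neg_sq, I_sq]
  rw [e4]
  norm_num

theorem th_add {n p q a : ℕ} (t : ℕ) (h : p + t + (q + t) ≤ n)
    (ha : a ≤ n - (p + t + (q + t))) : th n (p + t) (q + t) a = th n p q (a + t) := by
  induction t generalizing a with
  | zero => rfl
  | succ t ih =>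
    rw [← add_assoc, ← add_assoc, th_step (by omega) (by omega), ih (by omega) (by omega)]
    congr 1
    omega

/-- the indices of the strings meeting the bidegree `(r, s)` -/
def idx (n : ℕ) (r s : ℤ) : Finset (ℕ × ℕ × ℕ) :=
  (Finset.range (n + 1) ×ˢ Finset.range (n + 1) ×ˢ Finset.range (n + 1)).filter
    (fun x => x.1 + x.2.1 ≤ n ∧ x.2.2 ≤ n - (x.1 + x.2.1) ∧ (x.1 : ℤ) - (x.2.1 : ℤ) = r ∧
      2 * (x.2.2 : ℤ) - ((n - (x.1 + x.2.1) : ℕ) : ℤ) = s)

theorem mem_idx {n : ℕ} {r s : ℤ} {x : ℕ × ℕ × ℕ} : x ∈ idx n r s ↔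
    x.1 + x.2.1 ≤ n ∧ x.2.2 ≤ n - (x.1 + x.2.1) ∧ (x.1 : ℤ) - (x.2.1 : ℤ) = r ∧
      2 * (x.2.2 : ℤ) - ((n - (x.1 + x.2.1) : ℕ) : ℤ) = s := by
  unfold idx
  rw [Finset.mem_filter, Finset.mem_product, Finset.mem_product, Finset.mem_range,
    Finset.mem_range, Finset.mem_range]
  constructor
  · exact fun h => h.2
  · intro h
    refine ⟨⟨?_, ?_, ?_⟩, h⟩ <;> omega

theorem th_eq_aux {n : ℕ} {r s : ℤ} {x y : ℕ × ℕ × ℕ} (hx : x ∈ idx n r s) (hy : y ∈ idx n r s)
    (hxy : x.1 ≤ y.1) : th n x.1 x.2.1 x.2.2 = th n y.1 y.2.1 y.2.2 := by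
  obtain ⟨p, q, a⟩ := x
  obtain ⟨p', q', a'⟩ := y
  rw [mem_idx] at hx hy
  simp only at hx hy hxy ⊢
  obtain ⟨t, rfl⟩ := Nat.exists_eq_add_of_le hxy
  obtain rfl : q' = q + t := by omega
  rw [th_add t (by omega) (by omega)]
  congr 1
  omega

theorem th_eq {n : ℕ} {r s : ℤ} {x y : ℕ × ℕ × ℕ} (hx : x ∈ idx n r s) (hy : y ∈ idx n r s) :
    th n x.1 x.2.1 x.2.2 = th n y.1 y.2.1 y.2.2 := by
  rcases le_total x.1 y.1 with h | h
  · exact th_eq_aux hx hy h
  · exact (th_eq_aux hy hx h).symm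

theorem sign_lemma {m a p q e : ℕ} (ha : a ≤ m) (u v J : ℂ) :
    (-2 * I) ^ (m - a) * u * ((-2 * I) ^ a * v * ((-1) ^ (m - a) * (I ^ (p + q) * J))) =
      ((-I) ^ m * (-1) ^ (m - a) * (-1) ^ q * (-1) ^ e) *
        (2 ^ m * u * v * (I ^ p * (-I) ^ q * (-1) ^ e * J)) := by
  have e1 : (-2 * I) ^ (m - a) * (-2 * I) ^ a = (-I) ^ m * 2 ^ m := by
    rw [← pow_add, Nat.sub_add_cancel ha, ← mul_pow]
    congr 1
    ring
  have e2 : (-1 : ℂ) ^ e * (-1) ^ e = 1 := by
    rw [← mul_pow]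
    norm_num
  have e3 : (-1 : ℂ) ^ q * (-I) ^ q = I ^ q := by
    rw [← mul_pow]
    congr 1
    ring
  calc (-2 * I) ^ (m - a) * u * ((-2 * I) ^ a * v * ((-1) ^ (m - a) * (I ^ (p + q) * J)))
      = ((-2 * I) ^ (m - a) * (-2 * I) ^ a) * (u * v * (-1) ^ (m - a) * (I ^ p * I ^ q) * J) := by
        rw [pow_add]
        ring
    _ = ((-I) ^ m * 2 ^ m) * (u * v * (-1) ^ (m - a) * (I ^ p * ((-1 : ℂ) ^ q * (-I) ^ q)) * J) *
          ((-1 : ℂ) ^ e * (-1) ^ e) := by rw [e1, e2, e3, mul_one]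
    _ = _ := by ring

namespace HodgeRing

variable {n : ℕ} {A : Type*} [Ring A] [Algebra ℂ A] (X : HodgeRing n A)

theorem wv_mem_low {p q a : ℕ} (hpq : p + q ≤ n) (ha : a ≤ n - (p + q)) {α : A}
    (hα : α ∈ X.H p q) :
    X.wv (n - (p + q)) a α ∈ X.low (n - (2 * (a : ℤ) - ((n - (p + q) : ℕ) : ℤ))) := by
  rw [X.wv_apply]
  refine Submodule.sum_mem _ fun j hj => ?_
  rw [Finset.mem_range] at hj
  by_cases h : n - (p + q) - j < a
  · rw [Nat.choose_eq_zero_of_lt h, Nat.cast_zero, zero_mul, zero_smul]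
    exact Submodule.zero_mem _
  · refine Submodule.smul_mem _ _ (X.mem_low ?_ (X.pow_mem X.omega_mem hα j))
    omega

theorem wv'_mem_low {p q a : ℕ} (hpq : p + q ≤ n) {α : A}
    (hα : α ∈ X.H p q) :
    X.wv' (n - (p + q)) a α ∈ X.low (n + (2 * (a : ℤ) - ((n - (p + q) : ℕ) : ℤ))) := by
  rw [X.wv'_apply]
  refine Submodule.sum_mem _ fun j _ => ?_
  by_cases h : j ≤ a
  · refine Submodule.smul_mem _ _ (X.mem_low ?_ (X.pow_mem X.omega_mem hα j))
    omega
  · rw [if_neg h, zero_mul, zero_smul]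
    exact Submodule.zero_mem _

theorem wv_mem_column {p q m a : ℕ} {α : A} (hα : α ∈ X.H p q) :
    X.wv m a α ∈ X.column ((p : ℤ) - (q : ℤ)) := by
  rw [X.wv_apply]
  refine Submodule.sum_mem _ fun j _ => ?_
  refine Submodule.smul_mem _ _ (X.mem_column ?_ (X.pow_mem X.omega_mem hα j))
  push_cast
  ring

theorem expo_mem_column {i : ℤ} (z : ℂ) {v : A} (hv : v ∈ X.column i) :
    X.expo z * v ∈ X.column i := by
  refine X.column_induct (P := fun v => X.expo z * v ∈ X.column i) (fun p q hpq a ha => ?_)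
    (by rw [mul_zero]; exact Submodule.zero_mem _)
    (fun a b ha hb => by rw [mul_add]; exact Submodule.add_mem _ ha hb) hv
  unfold expo
  rw [Finset.sum_mul]
  refine Submodule.sum_mem _ fun j _ => ?_
  rw [smul_mul_assoc]
  refine Submodule.smul_mem _ _ (X.mem_column ?_ (X.pow_mem X.omega_mem ha j))
  push_cast
  omega

/-- the polarised string vector -/
noncomputable def ev (p q a : ℕ) : A →ₗ[ℂ] A :=
  LinearMap.mulLeft ℂ (X.expo I) ∘ₗ X.wv (n - (p + q)) a

theorem ev_apply (p q a : ℕ) (α : A) : X.ev p q a α = X.expo I * X.wv (n - (p + q)) a α := rfl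

theorem expo_ev {p q : ℕ} (a : ℕ) {α : A} (hα : α ∈ X.pr p q) :
    X.expo I * X.ev p q a α = X.wv' (n - (p + q)) a α := by
  rw [X.ev_apply, ← mul_assoc, X.expo_mul, ← two_mul,
    X.expo_wv (Nat.sub_le _ _) (X.mem_pr.1 hα).2]

theorem sesq_ev {p q p' q' : ℕ} (a b : ℕ) (α : A) {β : A} (hβ : β ∈ X.pr p' q') :
    X.sesq (X.ev p q a α) (X.ev p' q' b β) =
      X.sesq (X.wv (n - (p + q)) a α) (X.wv' (n - (p' + q')) b β) := by
  rw [X.ev_apply p q, X.sesq_expo_I, X.expo_ev b hβ]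

theorem sesq_str_right (j l : ℕ) (α β : A) :
    X.sesq (X.omega ^ j * α) (X.omega ^ l * β) =
      (-1) ^ j * X.sesq α (X.omega ^ (j + l) * β) := by
  rw [X.sesq_omega_pow, ← mul_assoc, ← pow_add]

theorem sesq_str_left (j l : ℕ) (α β : A) :
    X.sesq (X.omega ^ j * α) (X.omega ^ l * β) =
      (-1) ^ l * X.sesq (X.omega ^ (l + j) * α) β := by
  rw [pow_add, mul_assoc, X.sesq_omega_pow l, ← mul_assoc, ← pow_add, ← two_mul, pow_mul]
  norm_num

/-- different strings are orthogonal -/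
theorem sesq_ev_ne {r s : ℤ} {x y : ℕ × ℕ × ℕ} (hx : x ∈ idx n r s) (hy : y ∈ idx n r s)
    (hxy : x ≠ y) {α β : A} (hα : α ∈ X.pr x.1 x.2.1) (hβ : β ∈ X.pr y.1 y.2.1) :
    X.sesq (X.ev x.1 x.2.1 x.2.2 α) (X.ev y.1 y.2.1 y.2.2 β) = 0 := by
  obtain ⟨p, q, a⟩ := x
  obtain ⟨p', q', b⟩ := y
  rw [mem_idx] at hx hy
  simp only at hx hy hα hβ ⊢
  rw [X.sesq_ev a b α hβ, X.wv_apply, X.wv'_apply, X.sesq_sum_left]
  refine Finset.sum_eq_zero fun j _ => ?_
  rw [X.sesq_sum_right]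
  refine Finset.sum_eq_zero fun l _ => ?_
  rw [X.sesq_smul_left, X.sesq_smul_right]
  have hne : ¬(p = p' ∧ q = q') := by
    rintro ⟨rfl, rfl⟩
    refine hxy ?_
    obtain rfl : a = b := by omega
    rfl
  suffices h : X.sesq (X.omega ^ j * α) (X.omega ^ l * β) = 0 by
    rw [h, mul_zero, mul_zero]
  by_cases h1 : n - (p + q) < j + l
  · rw [X.sesq_str_left, show l + j = (l + j - (n - (p + q) + 1)) + (n - (p + q) + 1) by omega,
      pow_add, mul_assoc, (X.mem_pr.1 hα).2, mul_zero, X.sesq_zero_left, mul_zero]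
  · by_cases h2 : n - (p' + q') < j + l
    · rw [X.sesq_str_right,
        show j + l = (j + l - (n - (p' + q') + 1)) + (n - (p' + q') + 1) by omega,
        pow_add, mul_assoc, (X.mem_pr.1 hβ).2, mul_zero, X.sesq_zero_right, mul_zero]
    · refine X.sesq_of_mem (X.pow_mem X.omega_mem (X.mem_pr.1 hα).1 j)
        (X.pow_mem X.omega_mem (X.mem_pr.1 hβ).1 l) fun h3 => hne ?_
      simp only [Prod.mk.injEq] at h3
      omega

/-- a string vector has a definite norm -/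
theorem sesq_ev_self {p q a : ℕ} (hpq : p + q ≤ n) (ha : a ≤ n - (p + q)) {α : A}
    (hα : α ∈ X.pr p q) : ∃ ρ : ℝ, 0 ≤ ρ ∧ (ρ = 0 → α = 0) ∧
      X.sesq (X.ev p q a α) (X.ev p q a α) = th n p q a * (ρ : ℂ) := by
  by_cases h0 : α = 0
  · refine ⟨0, le_rfl, fun _ => h0, ?_⟩
    rw [h0, map_zero, X.sesq_zero_left]
    simp
  obtain ⟨r, hr, hrr⟩ := X.hodgeRiemann p q α (X.mem_pr.1 hα).1 hpq (X.mem_pr.1 hα).2 h0
  refine ⟨2 ^ (n - (p + q)) * ((n - (p + q) - a).factorial : ℝ)⁻¹ * ((a.factorial : ℕ) : ℝ)⁻¹ * r,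
    by positivity, fun h => ?_, ?_⟩
  · exfalso
    have : 0 < 2 ^ (n - (p + q)) * ((n - (p + q) - a).factorial : ℝ)⁻¹ *
      ((a.factorial : ℕ) : ℝ)⁻¹ * r := by positivity
    exact this.ne' h
  · rw [X.sesq_ev a a α hα, X.wv_apply, X.wv'_apply, X.sesq_sum_left]
    have hmem := (X.mem_pr.1 hα).1
    rw [Finset.sum_eq_single (n - (p + q) - a)]
    · rw [X.sesq_sum_right, Finset.sum_eq_single a]
      · rw [X.sesq_smul_left, X.sesq_smul_right, if_pos le_rfl,
          show n - (p + q) - (n - (p + q) - a) = a by omega, Nat.choose_self, Nat.sub_self,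
          Nat.choose_zero_right, Nat.cast_one, one_mul, one_mul, X.sesq_str_right,
          show n - (p + q) - a + a = n - (p + q) by omega]
        have e1 : X.sesq α (X.omega ^ (n - (p + q)) * α) =
            I ^ (p + q) * X.int (X.omega ^ (n - (p + q)) * α * X.conj α) := by
          rw [sesq, X.dual_of_mem hmem, smul_mul_assoc, map_smul, smul_eq_mul, X.conj_omega_pow,
            ← mul_assoc, X.omega_pow_central]
        have e2 : (starRingEnd ℂ) ((2 * I) ^ a * ((a.factorial : ℕ) : ℂ)⁻¹) =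
            (-2 * I) ^ a * ((a.factorial : ℕ) : ℂ)⁻¹ := by
          rw [map_mul, map_pow, map_mul, Complex.conj_I, map_inv₀, Complex.conj_natCast]
          congr 2
          rw [map_ofNat]
          ring
        rw [e1, e2]
        have := sign_lemma (p := p) (q := q) (e := (p + q) * (p + q - 1) / 2) ha
          ((((n - (p + q) - a).factorial : ℕ) : ℂ)⁻¹) (((a.factorial : ℕ) : ℂ)⁻¹)
          (X.int (X.omega ^ (n - (p + q)) * α * X.conj α))
        rw [this, hrr]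
        unfold th
        push_cast
        ring
      · intro l hl hla
        rw [X.sesq_smul_left, X.sesq_smul_right]
        by_cases h1 : l ≤ a
        · rw [X.sesq_of_mem (X.pow_mem X.omega_mem hmem _) (X.pow_mem X.omega_mem hmem l),
            mul_zero, mul_zero]
          intro h3
          simp only [Prod.mk.injEq] at h3
          omega
        · rw [if_neg h1]
          simp
      · intro h
        simp only [Finset.mem_range] at h
        omega
    · intro j hj hja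
      rw [X.sesq_sum_right]
      refine Finset.sum_eq_zero fun l _ => ?_
      rw [X.sesq_smul_left, X.sesq_smul_right]
      by_cases h1 : n - (p + q) - j < a
      · rw [Nat.choose_eq_zero_of_lt h1]
        simp
      · by_cases h2 : l ≤ a
        · rw [X.sesq_of_mem (X.pow_mem X.omega_mem hmem j) (X.pow_mem X.omega_mem hmem l),
            mul_zero, mul_zero]
          intro h3
          simp only [Prod.mk.injEq] at h3
          omega
        · rw [if_neg h2]
          simp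
    · intro h
      simp only [Finset.mem_range] at h
      omega

/-- the polarised pieces -/
noncomputable def pol (r s : ℤ) : Submodule ℂ A :=
  ⨆ x ∈ idx n r s, (X.pr x.1 x.2.1).map (X.ev x.1 x.2.1 x.2.2)

theorem pol_le {r s : ℤ} {T : Submodule ℂ A}
    (h : ∀ x ∈ idx n r s, ∀ α ∈ X.pr x.1 x.2.1, X.ev x.1 x.2.1 x.2.2 α ∈ T) : X.pol r s ≤ T := by
  refine iSup₂_le fun x hx => ?_
  rw [Submodule.map_le_iff_le_comap]
  exact fun α hα => h x hx α hα

theorem ev_mem_pol {r s : ℤ} {x : ℕ × ℕ × ℕ} (hx : x ∈ idx n r s) {α : A}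
    (hα : α ∈ X.pr x.1 x.2.1) : X.ev x.1 x.2.1 x.2.2 α ∈ X.pol r s :=
  le_iSup₂ (f := fun (x : ℕ × ℕ × ℕ) (_ : x ∈ idx n r s) =>
    (X.pr x.1 x.2.1).map (X.ev x.1 x.2.1 x.2.2)) x hx (Submodule.mem_map_of_mem hα)

theorem pol_column (r s : ℤ) : X.pol r s ≤ X.column r := by
  refine X.pol_le fun x hx α hα => ?_
  rw [mem_idx] at hx
  rw [← hx.2.2.1]
  exact X.expo_mem_column I (X.wv_mem_column (X.mem_pr.1 hα).1)

theorem pol_low (r s : ℤ) {v : A} (hv : v ∈ X.pol r s) :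
    X.expo (-I) * v ∈ X.low (n - s) ∧ X.expo I * v ∈ X.low (n + s) := by
  constructor
  · have h : X.pol r s ≤ (X.low (n - s)).comap (LinearMap.mulLeft ℂ (X.expo (-I))) := by
      refine X.pol_le fun x hx α hα => ?_
      rw [mem_idx] at hx
      rw [Submodule.mem_comap, LinearMap.mulLeft_apply, X.ev_apply, X.expo_neg_mul, ← hx.2.2.2]
      exact X.wv_mem_low hx.1 hx.2.1 (X.mem_pr.1 hα).1
    exact h hv
  · have h : X.pol r s ≤ (X.low (n + s)).comap (LinearMap.mulLeft ℂ (X.expo I)) := by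
      refine X.pol_le fun x hx α hα => ?_
      rw [mem_idx] at hx
      rw [Submodule.mem_comap, LinearMap.mulLeft_apply, X.expo_ev _ hα, ← hx.2.2.2]
      exact X.wv'_mem_low hx.1 (X.mem_pr.1 hα).1
    exact h hv

/-- the form is definite on every piece -/
theorem pol_definite (r s : ℤ) {v : A} (hv : v ∈ X.pol r s) (h : X.sesq v v = 0) : v = 0 := by
  classical
  obtain ⟨μ, hμ⟩ := (Submodule.mem_iSup_finset_iff_exists_sum _ _).1 hv
  choose α hα hαμ using fun x => Submodule.mem_map.1 (μ x).2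
  have h1 : ∀ x ∈ idx n r s, ∃ ρ : ℝ, 0 ≤ ρ ∧ (ρ = 0 → α x = 0) ∧
      X.sesq (μ x : A) (μ x : A) = th n x.1 x.2.1 x.2.2 * (ρ : ℂ) := by
    intro x hx
    rw [mem_idx] at hx
    rw [← hαμ x]
    exact X.sesq_ev_self hx.1 hx.2.1 (hα x)
  choose! ρ hρ0 hρ1 hρ2 using h1
  have h2 : X.sesq v v = ∑ x ∈ idx n r s, th n x.1 x.2.1 x.2.2 * (ρ x : ℂ) := by
    rw [← hμ, X.sesq_sum_left]
    refine Finset.sum_congr rfl fun x hx => ?_
    rw [X.sesq_sum_right, Finset.sum_eq_single x]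
    · exact hρ2 x hx
    · intro y hy hyx
      rw [← hαμ x, ← hαμ y]
      exact X.sesq_ev_ne hx hy (Ne.symm hyx) (hα x) (hα y)
    · intro h
      exact absurd hx h
  rcases (idx n r s).eq_empty_or_nonempty with he | ⟨x0, hx0⟩
  · rw [← hμ, he, Finset.sum_empty]
  have h3 : th n x0.1 x0.2.1 x0.2.2 * ((∑ x ∈ idx n r s, ρ x : ℝ) : ℂ) = 0 := by
    rw [← h, h2]
    push_cast
    rw [Finset.mul_sum]
    refine Finset.sum_congr rfl fun x hx => ?_
    rw [th_eq hx hx0]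
  have h4 : ∑ x ∈ idx n r s, ρ x = 0 := by
    have := (mul_eq_zero.1 h3).resolve_left (th_ne _ _ _ _)
    exact_mod_cast this
  have h5 := (Finset.sum_eq_zero_iff_of_nonneg hρ0).1 h4
  rw [← hμ]
  refine Finset.sum_eq_zero fun x hx => ?_
  rw [← hαμ x, hρ1 x hx (h5 x hx), map_zero]

/-- the pieces span -/
theorem pol_span [FiniteDimensional ℂ A] : (⨆ x : ℤ × ℤ, X.pol x.1 x.2) = ⊤ := by
  set S : Submodule ℂ A := ⨆ x : ℤ × ℤ, X.pol x.1 x.2 with hS
  have h1 : ∀ p q : ℕ, p + q ≤ n → ∀ α ∈ X.pr p q, ∀ a, a ≤ n - (p + q) →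
      X.ev p q a α ∈ S := by
    intro p q hpq α hα a ha
    have hx : (p, q, a) ∈ idx n ((p : ℤ) - (q : ℤ)) (2 * (a : ℤ) - ((n - (p + q) : ℕ) : ℤ)) := by
      rw [mem_idx]
      exact ⟨hpq, ha, rfl, rfl⟩
    have h2 := X.ev_mem_pol hx hα
    exact (le_iSup (fun x : ℤ × ℤ => X.pol x.1 x.2)
      ((p : ℤ) - (q : ℤ), 2 * (a : ℤ) - ((n - (p + q) : ℕ) : ℤ))) h2
  have h2 : S.comap (LinearMap.mulLeft ℂ (X.expo I)) = ⊤ := by
    refine X.pr_induct fun p q hpq α hα c hc => ?_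
    induction c using Nat.strong_induction_on with
    | _ c ih =>
      have h3 : X.wv (n - (p + q)) (n - (p + q) - c) α ∈
          S.comap (LinearMap.mulLeft ℂ (X.expo I)) :=
        h1 p q hpq α hα _ (Nat.sub_le _ _)
      rw [X.wv_apply] at h3
      have hcm : c ∈ Finset.range (n - (p + q) + 1) := by
        rw [Finset.mem_range]
        omega
      rw [← Finset.add_sum_erase _ _ hcm, Nat.choose_self, Nat.cast_one, one_mul] at h3
      have h4 : ∑ j ∈ (Finset.range (n - (p + q) + 1)).erase c,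
          (((n - (p + q) - j).choose (n - (p + q) - c) : ℂ) *
            ((-2 * I) ^ j * ((j.factorial : ℕ) : ℂ)⁻¹)) • (X.omega ^ j * α) ∈
              S.comap (LinearMap.mulLeft ℂ (X.expo I)) := by
        refine Submodule.sum_mem _ fun j hj => ?_
        rw [Finset.mem_erase, Finset.mem_range] at hj
        rcases Nat.lt_or_ge j c with h | h
        · exact Submodule.smul_mem _ _ (ih j h (by omega))
        · rw [Nat.choose_eq_zero_of_lt (by omega), Nat.cast_zero, zero_mul, zero_smul]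
          exact Submodule.zero_mem _
      have h5 := (Submodule.add_mem_iff_left _ h4).1 h3
      refine (Submodule.smul_mem_iff _ ?_).1 h5
      refine mul_ne_zero (pow_ne_zero _ (mul_ne_zero (by norm_num) I_ne_zero))
        (inv_ne_zero ?_)
      exact_mod_cast c.factorial_ne_zero
  rw [eq_top_iff]
  intro v _
  have h3 : X.expo (-I) * v ∈ S.comap (LinearMap.mulLeft ℂ (X.expo I)) := by
    rw [h2]
    trivial
  rw [Submodule.mem_comap, LinearMap.mulLeft_apply, X.expo_mul_neg] at h3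
  exact h3

/-- **a polarised decomposition** of the cohomology ring -/
theorem exists_polarization [FiniteDimensional ℂ A] : ∃ W : ℤ → ℤ → Submodule ℂ A,
    (⨆ x : ℤ × ℤ, W x.1 x.2) = ⊤ ∧ (∀ r s, W r s ≤ X.column r) ∧
    (∀ r s, ∀ v ∈ W r s, X.expo (-I) * v ∈ X.low (n - s) ∧ X.expo I * v ∈ X.low (n + s)) ∧
    (∀ r s, ∀ v ∈ W r s, X.sesq v v = 0 → v = 0) :=
  ⟨X.pol, X.pol_span, X.pol_column, fun r s _ hv => X.pol_low r s hv,
    fun r s _ hv h => X.pol_definite r s hv h⟩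

end HodgeRing

end Pool.Agent.Hodge81
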