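import Pool.Agent.Helper28.HT.Kernel
import Pool.Agent.Helper81.HT.Polar

/-!
# Every Hodge ring is polarised
-/

set_option autoImplicit false

namespace Pool.Agent.Hodge81

theorem HodgeRing.polarized {n : ℕ} {A : Type*} [Ring A] [Algebra ℂ A] [FiniteDimensional ℂ A]
    (X : HodgeRing n A) : X.Polarized := X.exists_polarization

end Pool.Agent.Hodge81
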