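import Pool.Agent.Helper81.HT.Strings

/-!
# The Lefschetz decomposition
-/

set_option autoImplicit false

namespace Pool.Agent.Hodge81

open Complex Module

namespace HodgeRing

variable {n : ℕ} {A : Type*} [Ring A] [Algebra ℂ A] (X : HodgeRing n A)

/-- primitive classes -/
noncomputable def pr (p q : ℕ) : Submodule ℂ A :=
  X.H p q ⊓ LinearMap.ker (LinearMap.mulLeft ℂ (X.omega ^ (n - (p + q) + 1)))

theorem mem_pr {p q : ℕ} {α : A} :
    α ∈ X.pr p q ↔ α ∈ X.H p q ∧ X.omega ^ (n - (p + q) + 1) * α = 0 := by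
  simp [pr]

theorem H_eq_bot_of_lt {p q : ℕ} (h : n < p ∨ n < q) : X.H p q = ⊥ := X.bounded p q h

section
variable [FiniteDimensional ℂ A]

/-- hard Lefschetz: surjectivity -/
theorem pr_surj {p q : ℕ} (hpq : p + q ≤ n) {v : A} (hv : v ∈ X.H (n - q) (n - p)) :
    ∃ u ∈ X.H p q, X.omega ^ (n - (p + q)) * u = v := by
  have hmem : ∀ u ∈ X.H p q, X.omega ^ (n - (p + q)) * u ∈ X.H (n - q) (n - p) := fun u hu => by
    have := X.pow_mem X.omega_mem hu (n - (p + q))
    rwa [show p + (n - (p + q)) = n - q by omega, show q + (n - (p + q)) = n - p by omega] at this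
  let f : X.H p q →ₗ[ℂ] X.H (n - q) (n - p) :=
    (LinearMap.mulLeft ℂ (X.omega ^ (n - (p + q)))).restrict hmem
  have hf : ∀ u : X.H p q, (f u : A) = X.omega ^ (n - (p + q)) * (u : A) := fun u => rfl
  have hinj : Function.Injective f := by
    rw [injective_iff_map_eq_zero]
    intro u hu
    have h1 : X.omega ^ (n - (p + q)) * (u : A) = 0 := by rw [← hf, hu]; rfl
    exact Subtype.ext (X.lefschetz u.2 hpq h1)
  have hdim : finrank ℂ (X.H p q) = finrank ℂ (X.H (n - q) (n - p)) := by
    have h1 := X.h_serre (p := q) (q := p) (by omega) (by omega)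
    have h2 := X.h_conj p q
    unfold h at h1 h2
    omega
  have hsurj : Function.Surjective f :=
    (LinearMap.injective_iff_surjective_of_finrank_eq_finrank hdim).1 hinj
  obtain ⟨u, hu⟩ := hsurj ⟨v, hv⟩
  exact ⟨u, u.2, by rw [← hf, hu]⟩

/-- the Lefschetz decomposition, as an induction principle -/
theorem pr_induct {S : Submodule ℂ A}
    (hS : ∀ p q : ℕ, p + q ≤ n → ∀ α ∈ X.pr p q, ∀ c : ℕ, c ≤ n - (p + q) →
      X.omega ^ c * α ∈ S) : S = ⊤ := by
  -- the span of the strings is stable under `omega`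
  have hS' : ∀ p q : ℕ, p + q ≤ n → ∀ α ∈ X.pr p q, ∀ c : ℕ, X.omega ^ c * α ∈ S := by
    intro p q hpq α hα c
    rcases Nat.lt_or_ge (n - (p + q)) c with h | h
    · have h1 := (X.mem_pr.1 hα).2
      rw [show c = (c - (n - (p + q) + 1)) + (n - (p + q) + 1) by omega, pow_add, mul_assoc, h1,
        mul_zero]
      exact Submodule.zero_mem _
    · exact hS p q hpq α hα c h
  -- low degrees
  have low : ∀ k : ℕ, ∀ p q : ℕ, p + q = k → k ≤ n → ∀ v ∈ X.H p q, ∀ c : ℕ,
      X.omega ^ c * v ∈ S := by
    intro k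
    induction k using Nat.strong_induction_on with
    | _ k ih =>
      intro p q hk hkn v hv c
      by_cases hpq : p = 0 ∨ q = 0
      · refine hS' p q (by omega) v (X.mem_pr.2 ⟨hv, ?_⟩) c
        have h1 := X.pow_mem X.omega_mem hv (n - (p + q) + 1)
        rw [X.H_eq_bot_of_lt (by omega)] at h1
        simpa using h1
      · push Not at hpq
        obtain ⟨p', rfl⟩ := Nat.exists_eq_succ_of_ne_zero hpq.1
        obtain ⟨q', rfl⟩ := Nat.exists_eq_succ_of_ne_zero hpq.2
        simp only [Nat.succ_eq_add_one] at hk hv ⊢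
        have h1 := X.pow_mem X.omega_mem hv (n - (p' + 1 + (q' + 1)) + 1)
        rw [show p' + 1 + (n - (p' + 1 + (q' + 1)) + 1) = n - q' by omega,
          show q' + 1 + (n - (p' + 1 + (q' + 1)) + 1) = n - p' by omega] at h1
        obtain ⟨u, hu, hue⟩ := X.pr_surj (p := p') (q := q') (by omega) h1
        have hprim : v - X.omega * u ∈ X.pr (p' + 1) (q' + 1) := by
          refine X.mem_pr.2 ⟨Submodule.sub_mem _ hv ?_, ?_⟩
          · have := X.pow_mem X.omega_mem hu 1
            rwa [pow_one] at this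
          · rw [mul_sub, ← hue, ← mul_assoc, ← pow_succ,
              show n - (p' + 1 + (q' + 1)) + 1 + 1 = n - (p' + q') by omega, sub_self]
        have h2 := hS' (p' + 1) (q' + 1) (by omega) _ hprim c
        have h3 := ih (p' + q') (by omega) p' q' rfl (by omega) u hu (c + 1)
        have h4 : X.omega ^ c * v = X.omega ^ c * (v - X.omega * u) + X.omega ^ (c + 1) * u := by
          rw [mul_sub, ← mul_assoc, ← pow_succ]
          abel
        rw [h4]
        exact Submodule.add_mem _ h2 h3
  have all : ∀ p q : ℕ, ∀ v ∈ X.H p q, v ∈ S := by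
    intro p q v hv
    rcases Nat.lt_or_ge n (p + q) with h | h
    · by_cases hb : n < p ∨ n < q
      · rw [X.H_eq_bot_of_lt hb] at hv
        rw [(Submodule.mem_bot ℂ).1 hv]
        exact Submodule.zero_mem _
      · push Not at hb
        have hv' : v ∈ X.H (n - (n - p)) (n - (n - q)) := by
          rwa [Nat.sub_sub_self hb.1, Nat.sub_sub_self hb.2]
        obtain ⟨u, hu, hue⟩ := X.pr_surj (p := n - q) (q := n - p) (by omega) hv'
        rw [← hue]
        exact low _ (n - q) (n - p) rfl (by omega) u hu _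
    · have := low _ p q rfl h v hv 0
      rwa [pow_zero, one_mul] at this
  rw [eq_top_iff, ← X.iSup_H]
  exact iSup_le fun x v hv => all x.1 x.2 v hv

end

end HodgeRing

end Pool.Agent.Hodge81
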