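import Pool.Agent.Helper28.HT.Basic

/-!
# Strings for the Lefschetz operator
-/

set_option autoImplicit false

namespace Pool.Agent.Hodge81

open Complex Module Polynomial

/-- alternating sums of binomial coefficients -/
theorem choose_alt {l m : ℕ} (hl : l ≤ m) (a : ℕ) :
    ∑ j ∈ Finset.range (l + 1), (-1 : ℂ) ^ j * (l.choose j : ℂ) * ((m - j).choose a : ℂ) =
      if l ≤ a then ((m - l).choose (a - l) : ℂ) else 0 := by
  have h1 : (1 + X : ℂ[X]) ^ (m - l) * X ^ l =
      ∑ j ∈ Finset.range (l + 1), ((-1) ^ j * (l.choose j : ℂ[X])) * (1 + X) ^ (m - j) := by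
    have h2 : (X : ℂ[X]) ^ l = ((-1) + (1 + X)) ^ l := by ring
    rw [h2, add_pow (-1 : ℂ[X]) (1 + X) l, Finset.mul_sum]
    refine Finset.sum_congr rfl fun j hj => ?_
    have hj' : j ≤ l := by simp only [Finset.mem_range] at hj; omega
    rw [show m - j = (m - l) + (l - j) by omega, pow_add]
    ring
  have h3 := congrArg (fun P : ℂ[X] => P.coeff a) h1
  simp only [coeff_mul_X_pow', coeff_one_add_X_pow, finsetSum_coeff] at h3
  rw [h3]
  refine Finset.sum_congr rfl fun j _ => ?_
  have h4 : ((-1 : ℂ[X]) ^ j * (l.choose j : ℂ[X])) = C ((-1 : ℂ) ^ j * (l.choose j : ℂ)) := by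
    simp
  rw [h4, coeff_C_mul, coeff_one_add_X_pow]

namespace HodgeRing

variable {n : ℕ} {A : Type*} [Ring A] [Algebra ℂ A] (X : HodgeRing n A)

/-- multiplication by `expo z` on a string -/
theorem expo_mul_seq (z : ℂ) {α : A} {m : ℕ} (hm : m ≤ n) (hα : X.omega ^ (m + 1) * α = 0)
    (c : ℕ → ℂ) :
    X.expo z * ∑ j ∈ Finset.range (m + 1), c j • (X.omega ^ j * α) =
      ∑ l ∈ Finset.range (m + 1), (∑ j ∈ Finset.range (l + 1),
        (z ^ (l - j) * ((l - j).factorial : ℂ)⁻¹) * c j) • (X.omega ^ l * α) := by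
  have hz : ∀ i, m + 1 ≤ i → X.omega ^ i * α = 0 := fun i hi => by
    obtain ⟨t, rfl⟩ := Nat.exists_eq_add_of_le' hi
    rw [pow_add, mul_assoc, hα, mul_zero]
  set f : ℕ → ℕ → A := fun i j => ((z ^ i * (i.factorial : ℂ)⁻¹) * c j) • (X.omega ^ (i + j) * α)
    with hf
  have hL : X.expo z * ∑ j ∈ Finset.range (m + 1), c j • (X.omega ^ j * α) =
      ∑ j ∈ Finset.range (m + 1), ∑ i ∈ Finset.range (n + 1), f i j := by
    rw [Finset.mul_sum]
    refine Finset.sum_congr rfl fun j _ => ?_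
    unfold expo
    rw [Finset.sum_mul]
    refine Finset.sum_congr rfl fun i _ => ?_
    rw [hf, smul_mul_smul_comm, ← mul_assoc, ← pow_add]
  have hR : (∑ l ∈ Finset.range (m + 1), (∑ j ∈ Finset.range (l + 1),
        (z ^ (l - j) * ((l - j).factorial : ℂ)⁻¹) * c j) • (X.omega ^ l * α)) =
      ∑ j ∈ Finset.range (m + 1), ∑ l ∈ Finset.range (m + 1), if j ≤ l then f (l - j) j else 0 := by
    rw [Finset.sum_comm]
    refine Finset.sum_congr rfl fun l hl => ?_
    rw [Finset.sum_smul, ← Finset.sum_filter]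
    have hfil : (Finset.range (m + 1)).filter (fun j => j ≤ l) = Finset.range (l + 1) := by
      ext j
      simp only [Finset.mem_filter, Finset.mem_range] at hl ⊢
      omega
    rw [hfil]
    refine Finset.sum_congr rfl fun j hj => ?_
    simp only [Finset.mem_range] at hj
    rw [hf]
    simp only
    rw [Nat.sub_add_cancel (by omega)]
  rw [hL, hR]
  refine Finset.sum_congr rfl fun j hj => ?_
  simp only [Finset.mem_range] at hj
  rw [← Finset.sum_filter]
  have hfil : (Finset.range (m + 1)).filter (fun l => j ≤ l) = Finset.Ico j (m + 1) := by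
    ext l
    simp only [Finset.mem_filter, Finset.mem_range, Finset.mem_Ico]
    omega
  rw [hfil, Finset.sum_Ico_eq_sum_range]
  have hsub : Finset.range (m + 1 - j) ⊆ Finset.range (n + 1) := by
    intro i hi
    simp only [Finset.mem_range] at hi ⊢
    omega
  rw [← Finset.sum_subset hsub]
  · refine Finset.sum_congr rfl fun i _ => ?_
    rw [Nat.add_sub_cancel_left]
  · intro i _ hi
    simp only [Finset.mem_range] at hi
    rw [hf]
    simp only
    rw [hz (i + j) (by omega), smul_zero]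

/-- the string vector `w` -/
noncomputable def wv (m a : ℕ) : A →ₗ[ℂ] A :=
  ∑ j ∈ Finset.range (m + 1), (((m - j).choose a : ℂ) * ((-2 * I) ^ j * (j.factorial : ℂ)⁻¹)) •
    LinearMap.mulLeft ℂ (X.omega ^ j)

theorem wv_apply (m a : ℕ) (α : A) : X.wv m a α = ∑ j ∈ Finset.range (m + 1),
    (((m - j).choose a : ℂ) * ((-2 * I) ^ j * (j.factorial : ℂ)⁻¹)) • (X.omega ^ j * α) := by
  simp only [wv, LinearMap.coe_sum, Finset.sum_apply, LinearMap.smul_apply,
    LinearMap.mulLeft_apply]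

/-- the string vector `w'` -/
noncomputable def wv' (m a : ℕ) : A →ₗ[ℂ] A :=
  ∑ j ∈ Finset.range (m + 1), ((if j ≤ a then ((m - j).choose (a - j) : ℂ) else 0) *
    ((2 * I) ^ j * (j.factorial : ℂ)⁻¹)) • LinearMap.mulLeft ℂ (X.omega ^ j)

theorem wv'_apply (m a : ℕ) (α : A) : X.wv' m a α = ∑ j ∈ Finset.range (m + 1),
    ((if j ≤ a then ((m - j).choose (a - j) : ℂ) else 0) * ((2 * I) ^ j * (j.factorial : ℂ)⁻¹)) •
      (X.omega ^ j * α) := by
  simp only [wv', LinearMap.coe_sum, Finset.sum_apply, LinearMap.smul_apply,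
    LinearMap.mulLeft_apply]

theorem expo_wv {α : A} {m : ℕ} (hm : m ≤ n) (hα : X.omega ^ (m + 1) * α = 0) (a : ℕ) :
    X.expo (2 * I) * X.wv m a α = X.wv' m a α := by
  rw [wv_apply, X.expo_mul_seq _ hm hα, wv'_apply]
  refine Finset.sum_congr rfl fun l hl => ?_
  have hl' : l ≤ m := by simp only [Finset.mem_range] at hl; omega
  congr 1
  rw [← choose_alt hl' a, Finset.sum_mul]
  refine Finset.sum_congr rfl fun j hj => ?_
  have hj' : j ≤ l := by simp only [Finset.mem_range] at hj; omega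
  rw [Nat.cast_choose ℂ hj']
  have e1 : (-2 * I) ^ j = (-1) ^ j * (2 * I) ^ j := by rw [← mul_pow]; ring
  have e2 : (2 * I : ℂ) ^ l = (2 * I) ^ (l - j) * (2 * I) ^ j := by
    rw [← pow_add, Nat.sub_add_cancel hj']
  have h1 : (l.factorial : ℂ) ≠ 0 := by exact_mod_cast l.factorial_ne_zero
  have h2 : (j.factorial : ℂ) ≠ 0 := by exact_mod_cast j.factorial_ne_zero
  have h3 : ((l - j).factorial : ℂ) ≠ 0 := by exact_mod_cast (l - j).factorial_ne_zero
  rw [e1, e2]
  field_simp

end HodgeRing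

end Pool.Agent.Hodge81
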